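import Mathlib

set_option autoImplicit false

namespace Pool.Agent.Lib.MP_329cea_co

open Finset

/-- The restricted sum: all `a + b` with `a ∈ A`, `b ∈ B'` and `(a, b) ∉ F`. -/
def restrictedSum {p : ℕ} (A B' : Finset (ZMod p)) (F : Finset (ZMod p × ZMod p)) :
    Finset (ZMod p) :=
  ((A ×ˢ B').filter (fun e => e ∉ F)).image (fun e => e.1 + e.2)

/-- Every first coordinate and every second coordinate is shared by at most `d` pairs of `F`. -/
def DegreeLE {p : ℕ} (F : Finset (ZMod p × ZMod p)) (d : ℕ) : Prop :=
  (∀ a, (F.filter (fun e => e.1 = a)).card ≤ d) ∧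
    (∀ b, (F.filter (fun e => e.2 = b)).card ≤ d)

/-- The reduction used by all the constructions: a symmetric set `C` and a set `T` of shifts such
that a point outside `C` has at most `q` of its `T`-translates in `C`. -/
lemma reduction {p : ℕ} [NeZero p] (C : Finset (ZMod p)) (t0 : ZMod p)
    (hC : ∀ x ∈ C, t0 - x ∈ C) (T : Finset (ZMod p)) (q k : ℕ)
    (hq : ∀ y, y ∉ C → (T.filter (fun t => y + t ∈ C)).card ≤ q) (hk : k + q ≤ T.card)
    (hne : ∃ x, x ∉ C) :
    ∃ (d : ℕ) (F : Finset (ZMod p × ZMod p)), F ⊆ Cᶜ ×ˢ Cᶜ ∧ DegreeLE F d ∧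
      d + k = Cᶜ.card ∧ ∀ B' ⊆ Cᶜ, (restrictedSum Cᶜ B' F).card ≤ T.card := by
  classical
  set A : Finset (ZMod p) := Cᶜ with hA
  set T' : Finset (ZMod p) := T.image (fun t => t0 - t) with hT'
  set F : Finset (ZMod p × ZMod p) := (A ×ˢ A).filter (fun e => e.1 + e.2 ∉ T') with hF
  have hgood : ∀ a ∈ A, k ≤ (A.filter (fun b => a + b ∈ T')).card := by
    intro a ha
    have haC : a ∉ C := by rw [hA, Finset.mem_compl] at ha; exact ha
    have h1 := hq a haC
    have h2 := Finset.card_filter_add_card_filter_not (s := T) (fun t => a + t ∈ C)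
    have h3 : k ≤ (T.filter (fun t => ¬ a + t ∈ C)).card := by omega
    refine h3.trans ?_
    apply Finset.card_le_card_of_injOn (fun t => t0 - t - a)
    · intro t ht
      simp only [Finset.coe_filter, Set.mem_ofPred_eq] at ht ⊢
      refine ⟨?_, ?_⟩
      · rw [hA, Finset.mem_compl]
        intro hcon
        have := hC _ hcon
        rw [show t0 - (t0 - t - a) = a + t by ring] at this
        exact ht.2 this
      · rw [hT', Finset.mem_image]
        exact ⟨t, ht.1, by ring⟩
    · intro s _ t _ hst
      have hst' : t0 - s - a = t0 - t - a := hst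
      linear_combination -hst'
  obtain ⟨x, hx⟩ := hne
  have hxA : x ∈ A := by rw [hA, Finset.mem_compl]; exact hx
  have hkA : k ≤ A.card := (hgood x hxA).trans (Finset.card_le_card (Finset.filter_subset _ _))
  have hdeg : ∀ a ∈ A, (A.filter (fun b => a + b ∉ T')).card ≤ A.card - k := by
    intro a ha
    have h1 := hgood a ha
    have h3 := Finset.card_filter_add_card_filter_not (s := A) (fun b => a + b ∈ T')
    omega
  refine ⟨A.card - k, F, Finset.filter_subset _ _, ⟨?_, ?_⟩, by omega, ?_⟩
  · intro a
    by_cases ha : a ∈ A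
    · refine le_trans ?_ (hdeg a ha)
      apply Finset.card_le_card_of_injOn (fun e => e.2)
      · intro e he
        simp only [hF, Finset.coe_filter, Set.mem_ofPred_eq, Finset.mem_filter,
          Finset.mem_product] at he ⊢
        obtain ⟨⟨⟨_, h2⟩, h3⟩, h4⟩ := he
        rw [← h4]
        exact ⟨h2, h3⟩
      · intro e he e' he' hee
        simp only [Finset.coe_filter, Set.mem_ofPred_eq] at he he'
        exact Prod.ext (he.2.trans he'.2.symm) hee
    · have : F.filter (fun e => e.1 = a) = ∅ := by
        rw [Finset.filter_eq_empty_iff]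
        intro e he h
        rw [hF, Finset.mem_filter, Finset.mem_product] at he
        exact ha (h ▸ he.1.1)
      rw [this]
      simp
  · intro a
    by_cases ha : a ∈ A
    · refine le_trans ?_ (hdeg a ha)
      apply Finset.card_le_card_of_injOn (fun e => e.1)
      · intro e he
        simp only [hF, Finset.coe_filter, Set.mem_ofPred_eq, Finset.mem_filter,
          Finset.mem_product] at he ⊢
        obtain ⟨⟨⟨h1, _⟩, h3⟩, h4⟩ := he
        rw [← h4, add_comm]
        exact ⟨h1, h3⟩
      · intro e he e' he' hee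
        simp only [Finset.coe_filter, Set.mem_ofPred_eq] at he he'
        exact Prod.ext hee (he.2.trans he'.2.symm)
    · have : F.filter (fun e => e.2 = a) = ∅ := by
        rw [Finset.filter_eq_empty_iff]
        intro e he h
        rw [hF, Finset.mem_filter, Finset.mem_product] at he
        exact ha (h ▸ he.1.2)
      rw [this]
      simp
  · intro B' hB'
    have h1 : restrictedSum A B' F ⊆ T' := by
      intro s hs
      simp only [restrictedSum, hF, Finset.mem_image, Finset.mem_filter,
        Finset.mem_product] at hs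
      obtain ⟨e, ⟨⟨h1, h2⟩, h3⟩, rfl⟩ := hs
      by_contra hcon
      exact h3 ⟨⟨h1, hB' h2⟩, hcon⟩
    exact (Finset.card_le_card h1).trans Finset.card_image_le

end Pool.Agent.Lib.MP_329cea_co
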