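import Pool.Agent.Lib.MP_329cea_co.Defs

set_option autoImplicit false

namespace Pool.Agent.Lib.MP_329cea_co

open Finset

/-- Bound for a sum with digits at most `r - 1` in absolute value. -/
lemma digit_bound (r : ℕ) (hr : 1 ≤ r) : ∀ (m : ℕ) (d : Fin m → ℤ),
    (∀ j, |d j| ≤ (r : ℤ) - 1) → |∑ j, d j * (r : ℤ) ^ (j : ℕ)| ≤ (r : ℤ) ^ m - 1 := by
  intro m
  induction m with
  | zero => intro d _; simp
  | succ m ih =>
    intro d hd
    rw [Fin.sum_univ_castSucc]
    have h1 := ih (fun j => d j.castSucc) (fun j => hd _)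
    have h2 := hd (Fin.last m)
    have h3 : (0 : ℤ) < (r : ℤ) ^ m := by positivity
    have h4 : |d (Fin.last m) * (r : ℤ) ^ ((Fin.last m : Fin (m + 1)) : ℕ)|
        ≤ ((r : ℤ) - 1) * (r : ℤ) ^ m := by
      rw [abs_mul, Fin.val_last, abs_of_pos h3]
      exact mul_le_mul_of_nonneg_right h2 h3.le
    refine (abs_add_le _ _).trans ?_
    have h5 : |∑ j : Fin m, d j.castSucc * (r : ℤ) ^ ((j.castSucc : Fin (m + 1)) : ℕ)|
        ≤ (r : ℤ) ^ m - 1 := by simpa using h1
    calc _ ≤ ((r : ℤ) ^ m - 1) + ((r : ℤ) - 1) * (r : ℤ) ^ m := add_le_add h5 h4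
      _ = (r : ℤ) ^ (m + 1) - 1 := by ring

/-- Uniqueness of digits over the integers. -/
lemma digit_zero (r : ℕ) (hr : 1 ≤ r) : ∀ (m : ℕ) (d : Fin m → ℤ),
    (∀ j, |d j| ≤ (r : ℤ) - 1) → ∑ j, d j * (r : ℤ) ^ (j : ℕ) = 0 → ∀ j, d j = 0 := by
  intro m
  induction m with
  | zero => intro d _ _ j; exact j.elim0
  | succ m ih =>
    intro d hd h
    rw [Fin.sum_univ_succ] at h
    have h1 : ∑ j : Fin m, d j.succ * (r : ℤ) ^ ((j.succ : Fin (m + 1)) : ℕ)
        = (r : ℤ) * ∑ j : Fin m, d j.succ * (r : ℤ) ^ (j : ℕ) := by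
      rw [Finset.mul_sum]
      apply Finset.sum_congr rfl
      intro j _
      rw [Fin.val_succ, pow_succ]
      ring
    rw [h1] at h
    simp only [Fin.val_zero, pow_zero, mul_one] at h
    have h2 : (r : ℤ) ∣ d 0 := ⟨-(∑ j : Fin m, d j.succ * (r : ℤ) ^ (j : ℕ)), by linarith⟩
    have h3 : d 0 = 0 := by
      apply Int.eq_zero_of_abs_lt_dvd h2
      have := hd 0
      linarith
    rw [h3, zero_add] at h
    have hr0 : (r : ℤ) ≠ 0 := by
      have : (1 : ℤ) ≤ r := by exact_mod_cast hr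
      intro hcon
      omega
    have h4 := (mul_eq_zero.mp h).resolve_left hr0
    have h5 := ih (fun j => d j.succ) (fun j => hd _) h4
    intro j
    refine Fin.cases h3 (fun i => h5 i) j

/-- Uniqueness of digits modulo `p`. -/
lemma digit_zmod {p : ℕ} (r m : ℕ) (hr : 1 ≤ r) (hp : r ^ m ≤ p) (d : Fin m → ℤ)
    (hd : ∀ j, |d j| ≤ (r : ℤ) - 1)
    (h : ∑ j, (d j : ZMod p) * (r : ZMod p) ^ (j : ℕ) = 0) : ∀ j, d j = 0 := by
  apply digit_zero r hr m d hd
  have h1 : ((∑ j, d j * (r : ℤ) ^ (j : ℕ) : ℤ) : ZMod p) = 0 := by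
    push_cast
    exact h
  rw [ZMod.intCast_zmod_eq_zero_iff_dvd] at h1
  apply Int.eq_zero_of_abs_lt_dvd h1
  have h2 := digit_bound r hr m d hd
  have h3 : ((r : ℤ)) ^ m ≤ p := by exact_mod_cast hp
  linarith

/-- The box: all numbers with base `r` digits less than `r - 1`. -/
noncomputable def box (p r m : ℕ) : Finset (ZMod p) :=
  (Fintype.piFinset (fun _ : Fin m => Finset.range (r - 1))).image
    (fun x => ∑ j : Fin m, ((x j : ℕ) : ZMod p) * (r : ZMod p) ^ (j : ℕ))

lemma mem_box {p r m : ℕ} {y : ZMod p} : y ∈ box p r m ↔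
    ∃ x : Fin m → ℕ, (∀ j, x j < r - 1) ∧
      ∑ j, ((x j : ℕ) : ZMod p) * (r : ZMod p) ^ (j : ℕ) = y := by
  simp [box]

lemma card_box {p r m : ℕ} (hr : 1 ≤ r) (hp : r ^ m ≤ p) : (box p r m).card = (r - 1) ^ m := by
  rw [box, Finset.card_image_of_injOn]
  · simp
  · intro x hx y hy hxy
    simp only [Finset.mem_coe, Fintype.mem_piFinset, Finset.mem_range] at hx hy
    have hxy' : ∑ j, ((x j : ℕ) : ZMod p) * (r : ZMod p) ^ (j : ℕ)
        = ∑ j, ((y j : ℕ) : ZMod p) * (r : ZMod p) ^ (j : ℕ) := hxy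
    have h1 := digit_zmod (p := p) r m hr hp (fun j => (x j : ℤ) - (y j : ℤ)) (by
      intro j
      have h1 := hx j
      have h2 := hy j
      rw [abs_le]
      constructor <;> omega) (by
      push_cast
      simp only [sub_mul]
      rw [Finset.sum_sub_distrib, hxy', sub_self])
    funext j
    have := h1 j
    omega

lemma box_symm {p r m : ℕ} (x : ZMod p) (hx : x ∈ box p r m) :
    (∑ _j : Fin m, ((r - 2 : ℕ) : ZMod p) * (r : ZMod p) ^ (_j : ℕ)) - x ∈ box p r m := by
  rw [mem_box] at hx ⊢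
  obtain ⟨c, hc, rfl⟩ := hx
  refine ⟨fun j => r - 2 - c j, ?_, ?_⟩
  · intro j
    have := hc j
    show r - 2 - c j < r - 1
    omega
  · rw [← Finset.sum_sub_distrib]
    apply Finset.sum_congr rfl
    intro j _
    have := hc j
    rw [Nat.cast_sub (show c j ≤ r - 2 by omega)]
    ring

/-- A point outside the box has at most one neighbour `y + r ^ j` in the box. -/
lemma box_nbr {p r m : ℕ} (hr : 2 ≤ r) (hp : r ^ m ≤ p) (y : ZMod p) (hy : y ∉ box p r m)
    (a b : Fin m) (ha : y + (r : ZMod p) ^ (a : ℕ) ∈ box p r m)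
    (hb : y + (r : ZMod p) ^ (b : ℕ) ∈ box p r m) : a = b := by
  by_contra hab
  apply hy
  rw [mem_box] at ha hb ⊢
  obtain ⟨c, hc, hca⟩ := ha
  obtain ⟨c', hc', hcb⟩ := hb
  have h1 := digit_zmod (p := p) r m (by omega) hp
    (fun j => (c j : ℤ) - (c' j : ℤ) - (if j = a then 1 else 0) + (if j = b then 1 else 0)) (by
      intro j
      have h1 := hc j
      have h2 := hc' j
      rw [abs_le]
      constructor
      · split_ifs <;> omega
      · split_ifs <;> omega) (by
      have e1 : ∀ i : Fin m, ∑ j : Fin m, ((if j = i then (1 : ZMod p) else 0)) *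
          (r : ZMod p) ^ (j : ℕ) = (r : ZMod p) ^ (i : ℕ) := by
        intro i
        simp
      push_cast
      simp only [sub_mul, add_mul]
      rw [Finset.sum_add_distrib, Finset.sum_sub_distrib, Finset.sum_sub_distrib, e1, e1, hca, hcb]
      ring)
  have h2 := h1 a
  simp only [if_true, if_neg hab] at h2
  refine ⟨Function.update c a (c' a), ?_, ?_⟩
  · intro j
    by_cases hj : j = a
    · subst hj
      rw [Function.update_self]
      exact hc' _
    · rw [Function.update_of_ne hj]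
      exact hc _
  · have e2 : ∀ j : Fin m, ((Function.update c a (c' a) j : ℕ) : ZMod p) * (r : ZMod p) ^ (j : ℕ)
        = ((c j : ℕ) : ZMod p) * (r : ZMod p) ^ (j : ℕ)
          - ((if j = a then (1 : ZMod p) else 0)) * (r : ZMod p) ^ (j : ℕ) := by
      intro j
      by_cases hj : j = a
      · subst hj
        rw [Function.update_self, if_pos rfl, ← sub_mul]
        congr 1
        have : ((c j : ℤ) : ZMod p) = ((c' j + 1 : ℤ) : ZMod p) := by
          congr 1
          omega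
        push_cast at this
        rw [this]
        ring
      · rw [Function.update_of_ne hj, if_neg hj]
        ring
    rw [Finset.sum_congr rfl (fun j _ => e2 j), Finset.sum_sub_distrib, hca]
    simp

/-- The powers `r ^ j` are different. -/
lemma pow_inj {p r m : ℕ} (hr : 3 ≤ r) (hp : r ^ m ≤ p) :
    Function.Injective (fun j : Fin m => (r : ZMod p) ^ (j : ℕ)) := by
  intro a b hab
  by_contra hne
  have hab' : (r : ZMod p) ^ (a : ℕ) = (r : ZMod p) ^ (b : ℕ) := hab
  have h1 := digit_zmod (p := p) r m (by omega) hp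
    (fun j => (if j = a then 1 else 0) - (if j = b then 1 else 0)) (by
      intro j
      rw [abs_le]
      constructor
      · split_ifs <;> omega
      · split_ifs <;> omega) (by
      have e1 : ∀ i : Fin m, ∑ j : Fin m, ((if j = i then (1 : ZMod p) else 0)) *
          (r : ZMod p) ^ (j : ℕ) = (r : ZMod p) ^ (i : ℕ) := by
        intro i
        simp
      push_cast
      simp only [sub_mul]
      rw [Finset.sum_sub_distrib, e1, e1, hab', sub_self])
  have h2 := h1 a
  simp only [if_true, if_neg hne] at h2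
  omega

/-- The construction with `k` fixed. -/
lemma fixed (ε : ℝ) (hε : 0 < ε) (k n₀ : ℕ) (hk : 1 ≤ k) :
    ∃ P₀ : ℕ, ∀ p : ℕ, p.Prime → P₀ ≤ p →
      ∃ (A : Finset (ZMod p)) (d : ℕ) (F : Finset (ZMod p × ZMod p)),
        n₀ ≤ A.card ∧ (A.card : ℝ) ≤ ε * p ∧ F ⊆ A ×ˢ A ∧ DegreeLE F d ∧ d + k = A.card ∧
        ∀ B' ⊆ A, (restrictedSum A B' F).card ≤ k + 1 := by
  classical
  obtain ⟨R, hR⟩ := exists_nat_gt (2 * ((k + 1 : ℕ) : ℝ) / ε)
  refine ⟨(R + n₀ + 3) ^ (k + 1), ?_⟩
  intro p hp hP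
  have : NeZero p := ⟨hp.ne_zero⟩
  set m : ℕ := k + 1 with hm
  set r : ℕ := Nat.findGreatest (fun r => r ^ m ≤ p) p with hrdef
  have hrp : r ^ m ≤ p := by
    apply Nat.findGreatest_spec (P := fun r => r ^ m ≤ p) (Nat.zero_le p)
    show 0 ^ m ≤ p
    rw [zero_pow (by omega)]
    exact Nat.zero_le _
  have hRr : R + n₀ + 3 ≤ r := by
    apply Nat.le_findGreatest
    · exact le_trans (Nat.le_self_pow (by omega) _) hP
    · exact hP
  have hpr : p < (r + 1) ^ m := by
    by_contra hcon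
    push Not at hcon
    have h1 : r + 1 ≤ r := by
      apply Nat.le_findGreatest
      · exact le_trans (Nat.le_self_pow (by omega) _) hcon
      · exact hcon
    omega
  have hcard := card_box (p := p) (r := r) (m := m) (by omega) hrp
  have hcompl : (box p r m)ᶜ.card = p - (r - 1) ^ m := by
    rw [Finset.card_compl, ZMod.card, hcard]
  have hpow : (r - 1) ^ m + r ≤ r ^ m := by
    obtain ⟨s, hs⟩ : ∃ s, r = s + 1 := ⟨r - 1, by omega⟩
    rw [hs, Nat.add_sub_cancel, hm, pow_succ, pow_succ]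
    have h1 : s ^ k ≤ (s + 1) ^ k := Nat.pow_le_pow_left (by omega) k
    have h2 : s + 1 ≤ (s + 1) ^ k := Nat.le_self_pow (by omega) _
    calc s ^ k * s + (s + 1) ≤ (s + 1) ^ k * s + (s + 1) ^ k := by
          apply Nat.add_le_add (Nat.mul_le_mul_right _ h1) h2
      _ = (s + 1) ^ k * (s + 1) := by ring
  set T : Finset (ZMod p) := Finset.univ.image (fun j : Fin m => (r : ZMod p) ^ (j : ℕ)) with hT
  have hTcard : T.card = m := by
    rw [hT, Finset.card_image_of_injective _ (pow_inj (by omega) hrp)]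
    simp
  have hred := reduction (box p r m) _ box_symm T 1 k (by
    intro y hy
    rw [Finset.card_le_one]
    intro s hs t ht
    rw [Finset.mem_filter, hT, Finset.mem_image] at hs ht
    obtain ⟨⟨a, _, rfl⟩, hs⟩ := hs
    obtain ⟨⟨b, _, rfl⟩, ht⟩ := ht
    rw [box_nbr (by omega) hrp y hy a b hs ht]) (by rw [hTcard]) (by
    by_contra hcon
    push Not at hcon
    have h1 : (box p r m)ᶜ = ∅ := by
      rw [Finset.eq_empty_iff_forall_notMem]
      intro x hx
      rw [Finset.mem_compl] at hx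
      exact hx (hcon x)
    rw [h1, Finset.card_empty] at hcompl
    omega)
  obtain ⟨d, F, hF, hd, hdk, hsum⟩ := hred
  refine ⟨(box p r m)ᶜ, d, F, ?_, ?_, hF, hd, hdk, ?_⟩
  · rw [hcompl]
    omega
  · rw [hcompl]
    have h1 : (r - 1) ^ m ≤ p := by omega
    rw [Nat.cast_sub h1]
    have hr1 : ((r - 1 : ℕ) : ℝ) = (r : ℝ) - 1 := by
      rw [Nat.cast_sub (by omega)]
      simp
    push_cast
    rw [hr1]
    have hr0 : (0 : ℝ) < (r : ℝ) + 1 := by positivity
    have hbern : 1 - (m : ℝ) * (2 / ((r : ℝ) + 1)) ≤ (((r : ℝ) - 1) / ((r : ℝ) + 1)) ^ m := by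
      have h2 : ((r : ℝ) - 1) / ((r : ℝ) + 1) = 1 + (-(2 / ((r : ℝ) + 1))) := by
        field_simp
        ring
      rw [h2]
      have h3 := one_add_mul_le_pow (a := -(2 / ((r : ℝ) + 1))) (by
        rw [neg_le_neg_iff]
        rw [div_le_iff₀ hr0]
        have : (3 : ℝ) ≤ r := by exact_mod_cast (show 3 ≤ r by omega)
        linarith) m
      linarith
    have h4 : (p : ℝ) ≤ ((r : ℝ) + 1) ^ m := by exact_mod_cast hpr.le
    have h5 : (p : ℝ) * (1 - (m : ℝ) * (2 / ((r : ℝ) + 1))) ≤ ((r : ℝ) - 1) ^ m := by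
      have hpos : (0 : ℝ) ≤ (((r : ℝ) - 1) / ((r : ℝ) + 1)) ^ m := by
        apply pow_nonneg
        apply div_nonneg _ hr0.le
        have : (3 : ℝ) ≤ r := by exact_mod_cast (show 3 ≤ r by omega)
        linarith
      calc (p : ℝ) * (1 - (m : ℝ) * (2 / ((r : ℝ) + 1)))
          ≤ (p : ℝ) * (((r : ℝ) - 1) / ((r : ℝ) + 1)) ^ m :=
            mul_le_mul_of_nonneg_left hbern (by positivity)
        _ ≤ ((r : ℝ) + 1) ^ m * (((r : ℝ) - 1) / ((r : ℝ) + 1)) ^ m :=
            mul_le_mul_of_nonneg_right h4 hpos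
        _ = ((r : ℝ) - 1) ^ m := by
            rw [← mul_pow]
            congr 1
            field_simp
    have h6 : (m : ℝ) * (2 / ((r : ℝ) + 1)) ≤ ε := by
      have h7 : (R : ℝ) ≤ r := by exact_mod_cast (show R ≤ r by omega)
      have h8 : 2 * (m : ℝ) / ε < (r : ℝ) + 1 := by linarith
      rw [div_lt_iff₀ hε] at h8
      rw [← mul_div_assoc, div_le_iff₀ hr0]
      nlinarith
    have hp0 : (0 : ℝ) ≤ (p : ℝ) := by positivity
    nlinarith
  · intro B' hB'
    refine (hsum B' hB').trans ?_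
    rw [hTcard]

end Pool.Agent.Lib.MP_329cea_co
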