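import Pool.Agent.Lib.MP_329cea_co.Defs

set_option autoImplicit false

namespace Pool.Agent.Lib.MP_329cea_co

open Finset

/-- Half-length of the row number `i`. -/
noncomputable def rowW (M u W0 i : ℤ) : ℤ := W0 + u * (i * (M - i))

/-- The planar set whose image is `C`. -/
noncomputable def rowD (M u W0 : ℤ) : Finset (ℤ × ℤ) :=
  (Finset.Icc 0 M ×ˢ Finset.Ico (-(W0 + u * M ^ 2)) (W0 + u * M ^ 2)).filter
    (fun e => -rowW M u W0 e.1 ≤ e.2 ∧ e.2 < rowW M u W0 e.1)

/-- The map from the plane to `Z_p`. -/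
noncomputable def rowPhi (p : ℕ) (S : ℤ) (e : ℤ × ℤ) : ZMod p := ((e.1 * S + e.2 : ℤ) : ZMod p)

lemma rowW_bounds (M u W0 i : ℤ) (hu : 1 ≤ u) (h0 : 0 ≤ i) (hi : i ≤ M) :
    W0 ≤ rowW M u W0 i ∧ rowW M u W0 i ≤ W0 + u * M ^ 2 := by
  unfold rowW
  have h1 : 0 ≤ i * (M - i) := mul_nonneg h0 (by linarith)
  have h2 : i * (M - i) ≤ M ^ 2 := by nlinarith
  constructor
  · have := mul_nonneg (show (0 : ℤ) ≤ u by linarith) h1
    linarith
  · have := mul_le_mul_of_nonneg_left h2 (show (0 : ℤ) ≤ u by linarith)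
    linarith

lemma mem_rowD {M u W0 : ℤ} (hu : 1 ≤ u) (e : ℤ × ℤ) : e ∈ rowD M u W0 ↔
    (0 ≤ e.1 ∧ e.1 ≤ M) ∧ -rowW M u W0 e.1 ≤ e.2 ∧ e.2 < rowW M u W0 e.1 := by
  unfold rowD
  rw [Finset.mem_filter, Finset.mem_product, Finset.mem_Icc, Finset.mem_Ico]
  constructor
  · rintro ⟨⟨h1, _⟩, h2⟩
    exact ⟨h1, h2⟩
  · rintro ⟨h1, h2⟩
    obtain ⟨_, h3⟩ := rowW_bounds M u W0 e.1 hu h1.1 h1.2
    exact ⟨⟨h1, by omega, by omega⟩, h2⟩

lemma rowPhi_inj {p : ℕ} {M S : ℤ} (hS : 1 ≤ S) (hp : (M + 3) * S ≤ p) (e e' : ℤ × ℤ)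
    (h1 : |e.1 - e'.1| ≤ M + 2) (h2 : |e.2 - e'.2| ≤ S - 1)
    (h : rowPhi p S e = rowPhi p S e') : e = e' := by
  unfold rowPhi at h
  have h3 : (((e.1 - e'.1) * S + (e.2 - e'.2) : ℤ) : ZMod p) = 0 := by
    have : (((e.1 - e'.1) * S + (e.2 - e'.2) : ℤ) : ZMod p)
        = ((e.1 * S + e.2 : ℤ) : ZMod p) - ((e'.1 * S + e'.2 : ℤ) : ZMod p) := by
      push_cast; ring
    rw [this, h, sub_self]
  rw [ZMod.intCast_zmod_eq_zero_iff_dvd] at h3
  have h4 : |(e.1 - e'.1) * S + (e.2 - e'.2)| < p := by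
    calc |(e.1 - e'.1) * S + (e.2 - e'.2)| ≤ |(e.1 - e'.1) * S| + |e.2 - e'.2| := abs_add_le _ _
      _ = |e.1 - e'.1| * S + |e.2 - e'.2| := by rw [abs_mul, abs_of_pos (show 0 < S by linarith)]
      _ ≤ (M + 2) * S + (S - 1) := by
          apply add_le_add _ h2
          exact mul_le_mul_of_nonneg_right h1 (by linarith)
      _ < p := by linarith
  have h5 := Int.eq_zero_of_abs_lt_dvd h3 h4
  have h6 : S ∣ (e.2 - e'.2) := ⟨-(e.1 - e'.1), by linarith⟩
  have h7 : e.2 - e'.2 = 0 := Int.eq_zero_of_abs_lt_dvd h6 (by linarith)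
  rw [h7, add_zero] at h5
  have h8 : e.1 - e'.1 = 0 := (mul_eq_zero.mp h5).resolve_right (by linarith)
  exact Prod.ext (by linarith) (by linarith)

/-- The planar count. -/
lemma row_count (M u v W0 : ℤ) (hM : 2 ≤ M) (hu : 1 ≤ u) (hv : (M + 1) * u ≤ v)
    (i x : ℤ) (hix : (i, x) ∉ rowD M u W0) :
    ((((Finset.Icc (-1 : ℤ) 1) ×ˢ (Finset.Ico (-v) v)).filter
      (fun t => (i + t.1, x + t.2) ∈ rowD M u W0)).card : ℤ) ≤ 3 * v - 2 * u := by
  classical
  set q : ℤ := M * u with hq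
  have hvq : q + u ≤ v := by rw [hq]; linarith
  have hqu : 2 * u ≤ q := by
    rw [hq]; exact mul_le_mul_of_nonneg_right hM (by linarith)
  have key : ∀ l h : ℤ → ℤ,
      (∀ j, -1 ≤ j → j ≤ 1 → ∀ b, -v ≤ b → b < v → (i + j, x + b) ∈ rowD M u W0 →
        l j ≤ b ∧ b < h j) →
      ((((Finset.Icc (-1 : ℤ) 1) ×ˢ (Finset.Ico (-v) v)).filter
        (fun t => (i + t.1, x + t.2) ∈ rowD M u W0)).card : ℤ)
        ≤ ((h (-1) - l (-1)).toNat + (h 0 - l 0).toNat + (h 1 - l 1).toNat : ℕ) := by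
    intro l h hlh
    have hsub : (((Finset.Icc (-1 : ℤ) 1) ×ˢ (Finset.Ico (-v) v)).filter
        (fun t => (i + t.1, x + t.2) ∈ rowD M u W0)) ⊆
        ({(-1 : ℤ)} ×ˢ Finset.Ico (l (-1)) (h (-1))) ∪ ({(0 : ℤ)} ×ˢ Finset.Ico (l 0) (h 0))
          ∪ ({(1 : ℤ)} ×ˢ Finset.Ico (l 1) (h 1)) := by
      rintro ⟨j, b⟩ ht
      rw [Finset.mem_filter, Finset.mem_product, Finset.mem_Icc, Finset.mem_Ico] at ht
      obtain ⟨⟨⟨h1, h2⟩, h3, h4⟩, h5⟩ := ht
      have h6 := hlh j h1 h2 b h3 h4 h5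
      simp only at h1 h2
      simp only [Finset.mem_union, Finset.mem_product, Finset.mem_singleton, Finset.mem_Ico]
      have h7 : j = -1 ∨ j = 0 ∨ j = 1 := by omega
      rcases h7 with rfl | rfl | rfl
      · exact Or.inl (Or.inl ⟨rfl, h6⟩)
      · exact Or.inl (Or.inr ⟨rfl, h6⟩)
      · exact Or.inr ⟨rfl, h6⟩
    have h1 := Finset.card_le_card hsub
    have h2 : (({(-1 : ℤ)} ×ˢ Finset.Ico (l (-1)) (h (-1))) ∪
        ({(0 : ℤ)} ×ˢ Finset.Ico (l 0) (h 0))
          ∪ ({(1 : ℤ)} ×ˢ Finset.Ico (l 1) (h 1))).card ≤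
        (h (-1) - l (-1)).toNat + (h 0 - l 0).toNat + (h 1 - l 1).toNat := by
      refine (Finset.card_union_le _ _).trans ?_
      refine (Nat.add_le_add_right (Finset.card_union_le _ _) _).trans ?_
      simp [Finset.card_product]
    exact_mod_cast h1.trans h2
  by_cases hi : 0 ≤ i ∧ i ≤ M
  · obtain ⟨hi0, hiM⟩ := hi
    set z : ℤ := u * (M - 2 * i) with hz
    have hz1 : z ≤ q := by
      rw [hz, hq]; nlinarith
    have hz2 : -q ≤ z := by
      rw [hz, hq]; nlinarith
    have hw1 : rowW M u W0 (i + 1) = rowW M u W0 i + z - u := by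
      unfold rowW; rw [hz]; ring
    have hw2 : rowW M u W0 (i + -1) = rowW M u W0 i - z - u := by
      unfold rowW; rw [hz]; ring
    have hz0 : i ≠ 0 ∨ z = q := by
      by_cases h : i = 0
      · right; rw [hz, hq, h]; ring
      · exact Or.inl h
    have hzM : i ≠ M ∨ z = -q := by
      by_cases h : i = M
      · right; rw [hz, hq, h]; ring
      · exact Or.inl h
    clear_value z q
    rw [mem_rowD hu] at hix
    simp only at hix
    by_cases hx : rowW M u W0 i ≤ x
    · refine (key (fun _ => -v) (fun j => if 0 ≤ i + j ∧ i + j ≤ M then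
        rowW M u W0 (i + j) - rowW M u W0 i else -v) ?_).trans ?_
      · intro j _ _ b hb1 hb2 hmem
        rw [mem_rowD hu] at hmem
        simp only at hmem
        refine ⟨hb1, ?_⟩
        show b < (if 0 ≤ i + j ∧ i + j ≤ M then
          rowW M u W0 (i + j) - rowW M u W0 i else -v)
        rw [if_pos hmem.1]
        omega
      · simp only [add_zero, hw1, hw2]
        split_ifs <;> omega
    · have hx' : x < -rowW M u W0 i := by
        by_contra hcon
        exact hix ⟨⟨hi0, hiM⟩, by omega, by omega⟩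
      refine (key (fun j => if 0 ≤ i + j ∧ i + j ≤ M then
        rowW M u W0 i - rowW M u W0 (i + j) else v) (fun _ => v) ?_).trans ?_
      · intro j _ _ b hb1 hb2 hmem
        rw [mem_rowD hu] at hmem
        simp only at hmem
        refine ⟨?_, hb2⟩
        show (if 0 ≤ i + j ∧ i + j ≤ M then
          rowW M u W0 i - rowW M u W0 (i + j) else v) ≤ b
        rw [if_pos hmem.1]
        omega
      · simp only [add_zero, hw1, hw2]
        split_ifs <;> omega
  · refine (key (fun _ => -v) (fun j => if 0 ≤ i + j ∧ i + j ≤ M then v else -v) ?_).trans ?_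
    · intro j _ _ b hb1 hb2 hmem
      rw [mem_rowD hu] at hmem
      simp only at hmem
      refine ⟨hb1, ?_⟩
      show b < (if 0 ≤ i + j ∧ i + j ≤ M then v else -v)
      rw [if_pos hmem.1]
      exact hb2
    · simp only [add_zero]
      rw [if_neg hi]
      by_cases h0 : i < 0
      · rw [if_neg (show ¬ (0 ≤ i + -1 ∧ i + -1 ≤ M) by omega)]
        split_ifs <;> omega
      · rw [if_neg (show ¬ (0 ≤ i + 1 ∧ i + 1 ≤ M) by omega)]
        split_ifs <;> omega

/-- The construction with rows. -/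
lemma rows {p : ℕ} (M u v W0 S : ℤ) (hM : 2 ≤ M) (hu : 1 ≤ u)
    (hv : (M + 1) * u ≤ v) (hW0 : 1 ≤ W0) (hS : 2 * (W0 + u * M ^ 2) + 2 * v + 1 ≤ S)
    (hp : (M + 3) * S ≤ p) :
    ∃ (C : Finset (ZMod p)) (t0 : ZMod p) (T : Finset (ZMod p)),
      (∀ x ∈ C, t0 - x ∈ C) ∧
      (∀ y, y ∉ C → ((T.filter (fun t => y + t ∈ C)).card : ℤ) ≤ 3 * v - 2 * u) ∧
      (T.card : ℤ) = 6 * v ∧ (M + 1) * (2 * W0) ≤ C.card ∧ (C.card : ℤ) ≤ (M + 1) * S := by
  classical
  have hMu : 0 ≤ u * M ^ 2 := by positivity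
  have hv0 : 3 ≤ v := by nlinarith
  set WM : ℤ := W0 + u * M ^ 2 with hWM
  have hS1 : 1 ≤ S := by omega
  have hcardC : ((rowD M u W0).image (rowPhi p S)).card = (rowD M u W0).card := by
    apply Finset.card_image_of_injOn
    intro e he e' he' hee
    rw [Finset.mem_coe, mem_rowD hu] at he he'
    obtain ⟨_, h1⟩ := rowW_bounds M u W0 e.1 hu he.1.1 he.1.2
    obtain ⟨_, h2⟩ := rowW_bounds M u W0 e'.1 hu he'.1.1 he'.1.2
    apply rowPhi_inj hS1 hp e e' _ _ hee
    · rw [abs_le]; constructor <;> omega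
    · rw [abs_le]; constructor <;> omega
  refine ⟨(rowD M u W0).image (rowPhi p S), rowPhi p S (M, -1),
    ((Finset.Icc (-1 : ℤ) 1) ×ˢ (Finset.Ico (-v) v)).image (rowPhi p S), ?_, ?_, ?_, ?_, ?_⟩
  · intro x hx
    rw [Finset.mem_image] at hx ⊢
    obtain ⟨e, he, rfl⟩ := hx
    refine ⟨(M - e.1, -1 - e.2), ?_, ?_⟩
    · rw [mem_rowD hu] at he ⊢
      have : rowW M u W0 (M - e.1) = rowW M u W0 e.1 := by unfold rowW; ring
      simp only [this]
      exact ⟨⟨by omega, by omega⟩, by omega, by omega⟩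
    · simp only [rowPhi]
      push_cast
      ring
  · intro y hy
    by_cases hex : ∃ t ∈ ((Finset.Icc (-1 : ℤ) 1) ×ˢ (Finset.Ico (-v) v)),
        y + rowPhi p S t ∈ (rowD M u W0).image (rowPhi p S)
    · obtain ⟨t, ht, hyt⟩ := hex
      rw [Finset.mem_image] at hyt
      obtain ⟨e, he, hey⟩ := hyt
      have hy' : y = rowPhi p S (e.1 - t.1, e.2 - t.2) := by
        have : rowPhi p S (e.1 - t.1, e.2 - t.2) = rowPhi p S e - rowPhi p S t := by
          simp only [rowPhi]; push_cast; ring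
        rw [this, hey]; ring
      set i : ℤ := e.1 - t.1 with hi
      set x : ℤ := e.2 - t.2 with hx
      have hix : (i, x) ∉ rowD M u W0 := by
        intro hcon
        apply hy
        rw [hy']
        exact Finset.mem_image_of_mem _ hcon
      refine le_trans ?_ (row_count M u v W0 hM hu hv i x hix)
      rw [Nat.cast_le]
      refine le_trans (Finset.card_le_card ?_)
        (Finset.card_image_le (f := rowPhi p S))
      intro s hs
      rw [Finset.mem_filter, Finset.mem_image] at hs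
      obtain ⟨⟨t', ht', rfl⟩, hs⟩ := hs
      rw [Finset.mem_image] at hs
      obtain ⟨e', he', hs⟩ := hs
      rw [Finset.mem_image]
      refine ⟨t', ?_, rfl⟩
      rw [Finset.mem_filter]
      refine ⟨ht', ?_⟩
      have h1 : rowPhi p S e' = rowPhi p S (i + t'.1, x + t'.2) := by
        rw [hs, hy']
        simp only [rowPhi]; push_cast; ring
      have he0 := he
      have he0' := he'
      rw [mem_rowD hu] at he0 he0'
      obtain ⟨_, h2⟩ := rowW_bounds M u W0 e.1 hu he0.1.1 he0.1.2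
      obtain ⟨_, h3⟩ := rowW_bounds M u W0 e'.1 hu he0'.1.1 he0'.1.2
      rw [Finset.mem_product, Finset.mem_Icc, Finset.mem_Ico] at ht ht'
      have h4 : e' = (i + t'.1, x + t'.2) := by
        apply rowPhi_inj hS1 hp _ _ _ _ h1
        · simp only; rw [abs_le]; constructor <;> omega
        · simp only; rw [abs_le]; constructor <;> omega
      rw [← h4]
      exact he'
    · have : (((Finset.Icc (-1 : ℤ) 1) ×ˢ (Finset.Ico (-v) v)).image (rowPhi p S)).filter
          (fun t => y + t ∈ (rowD M u W0).image (rowPhi p S)) = ∅ := by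
        rw [Finset.filter_eq_empty_iff]
        intro s hs hcon
        rw [Finset.mem_image] at hs
        obtain ⟨t, ht, rfl⟩ := hs
        exact hex ⟨t, ht, hcon⟩
      rw [this]
      have : u ≤ v := by nlinarith
      simp
      omega
  · rw [Finset.card_image_of_injOn]
    · rw [Finset.card_product, Int.card_Icc, Int.card_Ico]
      push_cast
      rw [Int.toNat_of_nonneg (by omega)]
      norm_num
      ring
    · intro e he e' he' hee
      rw [Finset.mem_coe, Finset.mem_product, Finset.mem_Icc, Finset.mem_Ico] at he he'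
      apply rowPhi_inj hS1 hp e e' _ _ hee
      · rw [abs_le]; constructor <;> omega
      · rw [abs_le]; constructor <;> omega
  · rw [hcardC]
    have hsub : Finset.Icc 0 M ×ˢ Finset.Ico (-W0) W0 ⊆ rowD M u W0 := by
      intro e he
      rw [Finset.mem_product, Finset.mem_Icc, Finset.mem_Ico] at he
      rw [mem_rowD hu]
      obtain ⟨h2, _⟩ := rowW_bounds M u W0 e.1 hu he.1.1 he.1.2
      exact ⟨he.1, by omega, by omega⟩
    have h1 := Finset.card_le_card hsub
    rw [Finset.card_product, Int.card_Icc, Int.card_Ico] at h1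
    have h2 : (((M + 1 - 0).toNat * (W0 - -W0).toNat : ℕ) : ℤ) ≤ (rowD M u W0).card := by
      exact_mod_cast h1
    push_cast at h2
    rw [Int.toNat_of_nonneg (by omega), Int.toNat_of_nonneg (by omega)] at h2
    calc (M + 1) * (2 * W0) = (M + 1 - 0) * (W0 - -W0) := by ring
      _ ≤ _ := h2
  · rw [hcardC]
    have h1 : (rowD M u W0).card ≤ (Finset.Icc 0 M ×ˢ Finset.Ico (-WM) WM).card :=
      Finset.card_le_card (Finset.filter_subset _ _)
    rw [Finset.card_product, Int.card_Icc, Int.card_Ico] at h1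
    have h2 : ((rowD M u W0).card : ℤ) ≤ (((M + 1 - 0).toNat * (WM - -WM).toNat : ℕ) : ℤ) := by
      exact_mod_cast h1
    push_cast at h2
    rw [Int.toNat_of_nonneg (by omega), Int.toNat_of_nonneg (by omega)] at h2
    refine h2.trans ?_
    rw [sub_zero]
    apply mul_le_mul_of_nonneg_left _ (by omega)
    omega

end Pool.Agent.Lib.MP_329cea_co
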