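import Mathlib

set_option autoImplicit false

namespace Pool.Agent.Results.MP_329cea_co.StarFails

open Finset

/-- The restricted sum: all `a + b` with `a ∈ A`, `b ∈ B'` and `(a, b) ∉ F`. -/
def restrictedSum {p : ℕ} (A B' : Finset (ZMod p)) (F : Finset (ZMod p × ZMod p)) :
    Finset (ZMod p) :=
  ((A ×ˢ B').filter (fun e => e ∉ F)).image (fun e => e.1 + e.2)

/-- Every first coordinate and every second coordinate is shared by at most `d` pairs of `F`. -/
def DegreeLE {p : ℕ} (F : Finset (ZMod p × ZMod p)) (d : ℕ) : Prop :=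
  (∀ a, (F.filter (fun e => e.1 = a)).card ≤ d) ∧
    (∀ b, (F.filter (fun e => e.2 = b)).card ≤ d)

def inC (r v m : ℕ) : Prop := m < v * r ∧ m % r < r - 2

instance (r v m : ℕ) : Decidable (inC r v m) := by unfold inC; infer_instance

lemma inC_add (r v i j : ℕ) (hi : i < r) : inC r v (i + r * j) ↔ i < r - 2 ∧ j < v := by
  unfold inC
  have hr : 0 < r := by omega
  have h1 : (i + r * j) % r = i := by
    rw [Nat.add_mul_mod_self_left, Nat.mod_eq_of_lt hi]
  have h2 : (i + r * j) / r = j := by
    rw [Nat.add_mul_div_left _ _ hr, Nat.div_eq_of_lt hi]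
    omega
  rw [h1]
  constructor
  · rintro ⟨h3, h4⟩
    refine ⟨h4, ?_⟩
    rw [← Nat.div_lt_iff_lt_mul hr, h2] at h3
    exact h3
  · rintro ⟨h3, h4⟩
    refine ⟨?_, h3⟩
    rw [← Nat.div_lt_iff_lt_mul hr, h2]
    exact h4

lemma of_nat {p r v : ℕ} [NeZero p] (hp : v * r + 2 * r ≤ p) (y : ZMod p) (m : ℕ)
    (hm : inC r v m) (hy : (m : ZMod p) = y) : inC r v y.val := by
  have : m < p := by have := hm.1; omega
  rw [← hy, ZMod.val_natCast_of_lt this]
  exact hm

lemma nat_eq {p : ℕ} [NeZero p] (c1 c2 δ : ℕ) (h1 : c1 < p) (h2 : c2 + δ < p)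
    (h : (c1 : ZMod p) = (c2 : ZMod p) + (δ : ZMod p)) : c1 = c2 + δ := by
  have h' : (c1 : ZMod p) = ((c2 + δ : ℕ) : ZMod p) := by push_cast; exact h
  rw [ZMod.natCast_eq_natCast_iff'] at h'
  rwa [Nat.mod_eq_of_lt h1, Nat.mod_eq_of_lt h2] at h'

/-- The core statement: if `y + s` and `y + s'` lie in `C` (with `s - s' = δ`), so does `y`. -/
lemma core {p r v : ℕ} [NeZero p] (hr : 3 ≤ r) (hp : v * r + 2 * r ≤ p) (y : ZMod p) :
    (inC r v (y + 1).val → inC r v (y - 1).val → inC r v y.val) ∧
    (inC r v (y + r).val → inC r v (y - r).val → inC r v y.val) ∧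
    (inC r v (y + 1).val → inC r v (y - r).val → inC r v y.val) ∧
    (inC r v (y + r).val → inC r v (y - 1).val → inC r v y.val) ∧
    (inC r v (y + r).val → inC r v (y + 1).val → inC r v y.val) ∧
    (inC r v (y - 1).val → inC r v (y - r).val → inC r v y.val) := by
  have hval : ∀ x : ZMod p, ((x.val : ℕ) : ZMod p) = x := fun x => ZMod.natCast_zmod_val x
  have hdec : ∀ c : ℕ, inC r v c → ∃ i j : ℕ, i < r - 2 ∧ j < v ∧ c = i + r * j := by
    intro c hc
    refine ⟨c % r, c / r, hc.2, ?_, (Nat.mod_add_div c r).symm⟩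
    rw [Nat.div_lt_iff_lt_mul (by omega)]
    exact hc.1
  refine ⟨?_, ?_, ?_, ?_, ?_, ?_⟩
  · intro h1 h2
    obtain ⟨i, j, hi, hj, hc⟩ := hdec _ h2
    have h3 : (y + 1).val = (y - 1).val + 2 := by
      apply nat_eq (p := p)
      · have := h1.1; omega
      · have := h2.1; omega
      · rw [hval, hval]; push_cast; ring
    rw [h3, hc, show i + r * j + 2 = (i + 2) + r * j by ring, inC_add _ _ _ _ (by omega)] at h1
    apply of_nat hp y ((i + 1) + r * j)
    · rw [inC_add _ _ _ _ (by omega)]; omega
    · have : ((i + r * j : ℕ) : ZMod p) = y - 1 := by rw [← hc, hval]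
      push_cast at this ⊢
      linear_combination this
  · intro h1 h2
    obtain ⟨i, j, hi, hj, hc⟩ := hdec _ h2
    have h3 : (y + r).val = (y - r).val + 2 * r := by
      apply nat_eq (p := p)
      · have := h1.1; omega
      · have := h2.1; omega
      · rw [hval, hval]; push_cast; ring
    rw [h3, hc, show i + r * j + 2 * r = i + r * (j + 2) by ring, inC_add _ _ _ _ (by omega)] at h1
    apply of_nat hp y (i + r * (j + 1))
    · rw [inC_add _ _ _ _ (by omega)]; omega
    · have : ((i + r * j : ℕ) : ZMod p) = y - r := by rw [← hc, hval]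
      push_cast at this ⊢
      linear_combination this
  · intro h1 h2
    obtain ⟨i, j, hi, hj, hc⟩ := hdec _ h2
    have h3 : (y + 1).val = (y - r).val + (r + 1) := by
      apply nat_eq (p := p)
      · have := h1.1; omega
      · have := h2.1; omega
      · rw [hval, hval]; push_cast; ring
    rw [h3, hc, show i + r * j + (r + 1) = (i + 1) + r * (j + 1) by ring,
      inC_add _ _ _ _ (by omega)] at h1
    apply of_nat hp y (i + r * (j + 1))
    · rw [inC_add _ _ _ _ (by omega)]; omega
    · have : ((i + r * j : ℕ) : ZMod p) = y - r := by rw [← hc, hval]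
      push_cast at this ⊢
      linear_combination this
  · intro h1 h2
    obtain ⟨i, j, hi, hj, hc⟩ := hdec _ h2
    have h3 : (y + r).val = (y - 1).val + (r + 1) := by
      apply nat_eq (p := p)
      · have := h1.1; omega
      · have := h2.1; omega
      · rw [hval, hval]; push_cast; ring
    rw [h3, hc, show i + r * j + (r + 1) = (i + 1) + r * (j + 1) by ring,
      inC_add _ _ _ _ (by omega)] at h1
    apply of_nat hp y ((i + 1) + r * j)
    · rw [inC_add _ _ _ _ (by omega)]; omega
    · have : ((i + r * j : ℕ) : ZMod p) = y - 1 := by rw [← hc, hval]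
      push_cast at this ⊢
      linear_combination this
  · intro h1 h2
    obtain ⟨i, j, hi, hj, hc⟩ := hdec _ h2
    have h3 : (y + r).val = (y + 1).val + (r - 1) := by
      apply nat_eq (p := p)
      · have := h1.1; omega
      · have := h2.1; omega
      · rw [hval, hval]; push_cast [Nat.cast_sub (show 1 ≤ r by omega)]; ring
    rcases Nat.eq_zero_or_pos i with hi0 | hi0
    · subst hi0
      rw [h3, hc, show 0 + r * j + (r - 1) = (r - 1) + r * j by ring,
        inC_add _ _ _ _ (by omega)] at h1
      omega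
    · rw [h3, hc, show i + r * j + (r - 1) = (i - 1) + r * (j + 1) by
          rw [mul_add]; omega, inC_add _ _ _ _ (by omega)] at h1
      apply of_nat hp y ((i - 1) + r * j)
      · rw [inC_add _ _ _ _ (by omega)]; omega
      · have : ((i + r * j : ℕ) : ZMod p) = y + 1 := by rw [← hc, hval]
        push_cast [Nat.cast_sub (show 1 ≤ i by omega)] at this ⊢
        linear_combination this
  · intro h1 h2
    obtain ⟨i, j, hi, hj, hc⟩ := hdec _ h2
    have h3 : (y - 1).val = (y - r).val + (r - 1) := by
      apply nat_eq (p := p)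
      · have := h1.1; omega
      · have := h2.1; omega
      · rw [hval, hval]; push_cast [Nat.cast_sub (show 1 ≤ r by omega)]; ring
    rcases Nat.eq_zero_or_pos i with hi0 | hi0
    · subst hi0
      rw [h3, hc, show 0 + r * j + (r - 1) = (r - 1) + r * j by ring,
        inC_add _ _ _ _ (by omega)] at h1
      omega
    · rw [h3, hc, show i + r * j + (r - 1) = (i - 1) + r * (j + 1) by
          rw [mul_add]; omega, inC_add _ _ _ _ (by omega)] at h1
      apply of_nat hp y (i + r * (j + 1))
      · rw [inC_add _ _ _ _ (by omega)]; omega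
      · have : ((i + r * j : ℕ) : ZMod p) = y - r := by rw [← hc, hval]
        push_cast at this ⊢
        linear_combination this

/-- Symmetry of `C` under `x ↦ v * r - 3 - x`. -/
lemma symm {p r v : ℕ} [NeZero p] (hr : 3 ≤ r) (hv : 1 ≤ v) (hp : v * r + 2 * r ≤ p)
    (x : ZMod p) (hx : inC r v x.val) : inC r v (((v * r - 3 : ℕ) : ZMod p) - x).val := by
  have hval : ((x.val : ℕ) : ZMod p) = x := ZMod.natCast_zmod_val x
  obtain ⟨i, j, hi, hj, hc⟩ : ∃ i j : ℕ, i < r - 2 ∧ j < v ∧ x.val = i + r * j := by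
    refine ⟨x.val % r, x.val / r, hx.2, ?_, (Nat.mod_add_div _ r).symm⟩
    rw [Nat.div_lt_iff_lt_mul (by omega)]
    exact hx.1
  apply of_nat hp _ ((r - 3 - i) + r * (v - 1 - j))
  · rw [inC_add _ _ _ _ (by omega)]; omega
  · have h3 : 3 ≤ v * r := by nlinarith
    rw [← hval, hc]
    have e1 : r - 3 - i = r - (3 + i) := by omega
    have e2 : v - 1 - j = v - (1 + j) := by omega
    rw [e1, e2]
    push_cast [Nat.cast_sub (show 3 + i ≤ r by omega), Nat.cast_sub (show 1 + j ≤ v by omega),
      Nat.cast_sub h3]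
    ring

lemma three {p r v : ℕ} [NeZero p] (hr : 3 ≤ r) (hv : 1 ≤ v) (hp : v * r + 2 * r ≤ p)
    (a : ZMod p) (ha : ¬ inC r v a.val) :
    3 ≤ (({((v * r - 3 : ℕ) : ZMod p) + 1, ((v * r - 3 : ℕ) : ZMod p) - 1,
      ((v * r - 3 : ℕ) : ZMod p) + r, ((v * r - 3 : ℕ) : ZMod p) - r} :
        Finset (ZMod p)).filter (fun t => ¬ inC r v (t - a).val)).card := by
  set t0 : ZMod p := ((v * r - 3 : ℕ) : ZMod p) with ht0
  set y : ZMod p := t0 - a with hy
  have hyC : ¬ inC r v y.val := by
    intro h
    have := symm hr hv hp y h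
    rw [← ht0, hy, sub_sub_cancel] at this
    exact ha this
  obtain ⟨c1, c2, c3, c4, c5, c6⟩ := core hr hp y
  have hvr : r ≤ v * r := Nat.le_mul_of_pos_left r hv
  have hne : ∀ m : ℕ, 0 < m → m < p → (m : ZMod p) ≠ 0 := by
    intro m h0 hm h
    rw [ZMod.natCast_eq_zero_iff] at h
    exact absurd (Nat.le_of_dvd h0 h) (by omega)
  have n2 := hne 2 (by omega) (by omega)
  have n2r := hne (2 * r) (by omega) (by omega)
  have nr1 := hne (r + 1) (by omega) (by omega)
  have nr2 := hne (r - 1) (by omega) (by omega)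
  push_cast [Nat.cast_sub (show 1 ≤ r by omega)] at n2 n2r nr1 nr2
  have d1 : t0 + 1 ≠ t0 - 1 := fun h => n2 (by linear_combination h)
  have d2 : t0 + 1 ≠ t0 + r := fun h => nr2 (by linear_combination -h)
  have d3 : t0 + 1 ≠ t0 - r := fun h => nr1 (by linear_combination h)
  have d4 : t0 - 1 ≠ t0 + r := fun h => nr1 (by linear_combination -h)
  have d5 : t0 - 1 ≠ t0 - r := fun h => nr2 (by linear_combination h)
  have d6 : t0 + r ≠ t0 - r := fun h => n2r (by linear_combination h)
  have hcard : ({t0 + 1, t0 - 1, t0 + r, t0 - r} : Finset (ZMod p)).card = 4 := by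
    rw [Finset.card_insert_of_notMem, Finset.card_insert_of_notMem,
      Finset.card_insert_of_notMem, Finset.card_singleton]
    · simpa using d6
    · simp only [Finset.mem_insert, Finset.mem_singleton, not_or]; exact ⟨d4, d5⟩
    · simp only [Finset.mem_insert, Finset.mem_singleton, not_or]; exact ⟨d1, d2, d3⟩
  have e1 : t0 + 1 - a = y + 1 := by rw [hy]; ring
  have e2 : t0 - 1 - a = y - 1 := by rw [hy]; ring
  have e3 : t0 + r - a = y + r := by rw [hy]; ring
  have e4 : t0 - r - a = y - r := by rw [hy]; ring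
  have hbad : (({t0 + 1, t0 - 1, t0 + r, t0 - r} : Finset (ZMod p)).filter
      (fun t => inC r v (t - a).val)).card ≤ 1 := by
    rw [Finset.card_le_one]
    intro s hs s' hs'
    simp only [Finset.mem_filter, Finset.mem_insert, Finset.mem_singleton] at hs hs'
    obtain ⟨hs, h1⟩ := hs
    obtain ⟨hs', h2⟩ := hs'
    rcases hs with rfl | rfl | rfl | rfl
    · rw [e1] at h1
      rcases hs' with rfl | rfl | rfl | rfl
      · rfl
      · rw [e2] at h2; exact absurd (c1 h1 h2) hyC
      · rw [e3] at h2; exact absurd (c5 h2 h1) hyC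
      · rw [e4] at h2; exact absurd (c3 h1 h2) hyC
    · rw [e2] at h1
      rcases hs' with rfl | rfl | rfl | rfl
      · rw [e1] at h2; exact absurd (c1 h2 h1) hyC
      · rfl
      · rw [e3] at h2; exact absurd (c4 h2 h1) hyC
      · rw [e4] at h2; exact absurd (c6 h1 h2) hyC
    · rw [e3] at h1
      rcases hs' with rfl | rfl | rfl | rfl
      · rw [e1] at h2; exact absurd (c5 h1 h2) hyC
      · rw [e2] at h2; exact absurd (c4 h1 h2) hyC
      · rfl
      · rw [e4] at h2; exact absurd (c2 h1 h2) hyC
    · rw [e4] at h1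
      rcases hs' with rfl | rfl | rfl | rfl
      · rw [e1] at h2; exact absurd (c3 h2 h1) hyC
      · rw [e2] at h2; exact absurd (c6 h2 h1) hyC
      · rw [e3] at h2; exact absurd (c2 h2 h1) hyC
      · rfl
  have := Finset.card_filter_add_card_filter_not (s := ({t0 + 1, t0 - 1, t0 + r, t0 - r} :
    Finset (ZMod p))) (fun t => inC r v (t - a).val)
  omega

lemma cardA {p r v : ℕ} [NeZero p] (hr : 3 ≤ r) (hp : v * r + 2 * r ≤ p) :
    2 * r ≤ (Finset.univ.filter (fun x : ZMod p => ¬ inC r v x.val)).card ∧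
    (Finset.univ.filter (fun x : ZMod p => ¬ inC r v x.val)).card ≤ (p - v * r) + 2 * v := by
  constructor
  · have h1 : ((Finset.Ico (v * r) p).image (fun m : ℕ => (m : ZMod p))) ⊆
        (Finset.univ.filter (fun x : ZMod p => ¬ inC r v x.val)) := by
      intro x hx
      simp only [Finset.mem_image, Finset.mem_Ico, Finset.mem_filter, Finset.mem_univ,
        true_and] at hx ⊢
      obtain ⟨m, ⟨h1, h2⟩, rfl⟩ := hx
      rw [ZMod.val_natCast_of_lt h2]
      intro h
      exact absurd h.1 (by omega)
    refine le_trans ?_ (Finset.card_le_card h1)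
    rw [Finset.card_image_of_injOn, Nat.card_Ico]
    · omega
    · intro a ha b hb hab
      simp only [Finset.coe_Ico, Set.mem_Ico] at ha hb
      have hab' : (a : ZMod p) = (b : ZMod p) := hab
      rw [ZMod.natCast_eq_natCast_iff'] at hab'
      rwa [Nat.mod_eq_of_lt ha.2, Nat.mod_eq_of_lt hb.2] at hab'
  · have h1 : (Finset.univ.filter (fun x : ZMod p => ¬ inC r v x.val)).image ZMod.val ⊆
        Finset.Ico (v * r) p ∪
          (Finset.range v ×ˢ Finset.range 2).image (fun q => q.2 + (r - 2) + r * q.1) := by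
      intro m hm
      simp only [Finset.mem_image, Finset.mem_filter, Finset.mem_univ, true_and] at hm
      obtain ⟨x, hx, rfl⟩ := hm
      have hxp := ZMod.val_lt x
      rw [Finset.mem_union]
      by_cases h : x.val < v * r
      · right
        have h2 : r - 2 ≤ x.val % r := by
          by_contra hcon
          exact hx ⟨h, by omega⟩
        have h3 := Nat.mod_lt x.val (show 0 < r by omega)
        rw [Finset.mem_image]
        refine ⟨(x.val / r, x.val % r - (r - 2)), ?_, ?_⟩
        · rw [Finset.mem_product, Finset.mem_range, Finset.mem_range]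
          refine ⟨?_, ?_⟩
          · show x.val / r < v
            rw [Nat.div_lt_iff_lt_mul (by omega)]
            exact h
          · show x.val % r - (r - 2) < 2
            omega
        · show x.val % r - (r - 2) + (r - 2) + r * (x.val / r) = x.val
          rw [Nat.sub_add_cancel h2, Nat.mod_add_div]
      · left
        rw [Finset.mem_Ico]
        omega
    have h2 := Finset.card_le_card h1
    rw [Finset.card_image_of_injective _ (ZMod.val_injective p)] at h2
    refine h2.trans ((Finset.card_union_le _ _).trans ?_)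
    rw [Nat.card_Ico]
    apply Nat.add_le_add_left
    refine Finset.card_image_le.trans ?_
    rw [Finset.card_product, Finset.card_range, Finset.card_range]
    omega

/-- Assertion (∗) fails, for every `β ∈ (0,1)`, every threshold `n₀`, and every large prime
`p`, already with `d = n - 3` and with no restriction on the size of `B'`. -/
theorem result :
    ∀ β : ℝ, 0 < β → β < 1 → ∀ n₀ : ℕ, ∃ P₀ : ℕ, ∀ p : ℕ, p.Prime → P₀ ≤ p →
      ∃ (A : Finset (ZMod p)) (d : ℕ) (F : Finset (ZMod p × ZMod p)),
        n₀ ≤ A.card ∧ (A.card : ℝ) < (1 - β) * p / 2 ∧ F ⊆ A ×ˢ A ∧ DegreeLE F d ∧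
        ∀ B' : Finset (ZMod p), B' ⊆ A →
          ((restrictedSum A B' F).card : ℤ) ≤ 2 * A.card - 2 * d - 2 := by
  intro β hβ0 hβ1 n₀
  obtain ⟨K, hK⟩ := exists_nat_gt (4 / (1 - β))
  set r : ℕ := max (max 3 n₀) K with hr
  have hr3 : 3 ≤ r := (le_max_left 3 n₀).trans (le_max_left _ _)
  have hrn : n₀ ≤ r := (le_max_right 3 n₀).trans (le_max_left _ _)
  have hrK : K ≤ r := le_max_right _ _
  have hβ' : 0 < 1 - β := by linarith
  have hrR : 4 / (1 - β) < (r : ℝ) := lt_of_lt_of_le hK (by exact_mod_cast hrK)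
  have hrpos : (0 : ℝ) < r := by
    have : (3 : ℝ) ≤ r := by exact_mod_cast hr3
    linarith
  set δ : ℝ := (1 - β) / 2 - 2 / r with hδ
  have hδpos : 0 < δ := by
    rw [hδ, sub_pos, div_lt_div_iff₀ hrpos (by norm_num)]
    rw [div_lt_iff₀ hβ'] at hrR
    linarith
  obtain ⟨Q, hQ⟩ := exists_nat_gt (3 * r / δ)
  refine ⟨max Q (3 * r), ?_⟩
  intro p hp hP
  have : NeZero p := ⟨hp.ne_zero⟩
  have hPQ : Q ≤ p := (le_max_left _ _).trans hP
  have hP3 : 3 * r ≤ p := (le_max_right _ _).trans hP
  have h3r : 3 ≤ p / r := by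
    rw [Nat.le_div_iff_mul_le (by omega)]
    exact hP3
  set v : ℕ := p / r - 2 with hv
  have hv1 : 1 ≤ v := by omega
  have hdm := Nat.div_add_mod p r
  have hml := Nat.mod_lt p (show 0 < r by omega)
  have hvr : v * r + 2 * r = r * (p / r) := by
    rw [hv, ← Nat.add_mul, Nat.sub_add_cancel (by omega), mul_comm]
  have hpv : v * r + 2 * r ≤ p := by omega
  set A : Finset (ZMod p) := Finset.univ.filter (fun x : ZMod p => ¬ inC r v x.val) with hA
  set t0 : ZMod p := ((v * r - 3 : ℕ) : ZMod p) with ht0
  set T : Finset (ZMod p) := {t0 + 1, t0 - 1, t0 + r, t0 - r} with hT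
  have hTcard : T.card ≤ 4 := Finset.card_le_four
  obtain ⟨hAl, hAu⟩ := cardA (p := p) (v := v) hr3 hpv
  rw [← hA] at hAl hAu
  set F : Finset (ZMod p × ZMod p) := (A ×ˢ A).filter (fun e => e.1 + e.2 ∉ T) with hF
  have hdeg : ∀ a ∈ A, (A.filter (fun b => a + b ∉ T)).card ≤ A.card - 3 := by
    intro a ha
    have h1 : 3 ≤ (A.filter (fun b => a + b ∈ T)).card := by
      have h2 := three (p := p) hr3 hv1 hpv a (by
        rw [hA, Finset.mem_filter] at ha
        exact ha.2)
      rw [← ht0, ← hT] at h2
      refine h2.trans ?_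
      apply Finset.card_le_card_of_injOn (fun t => t - a)
      · intro t ht
        simp only [Finset.coe_filter, Set.mem_ofPred_eq] at ht ⊢
        refine ⟨?_, ?_⟩
        · rw [hA, Finset.mem_filter]
          exact ⟨Finset.mem_univ _, ht.2⟩
        · rw [add_sub_cancel]
          exact ht.1
      · intro s _ t _ hst
        exact sub_left_injective hst
    have h3 := Finset.card_filter_add_card_filter_not (s := A) (fun b => a + b ∈ T)
    omega
  refine ⟨A, A.card - 3, F, by omega, ?_, Finset.filter_subset _ _, ⟨?_, ?_⟩, ?_⟩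
  · have h1 : (A.card : ℝ) ≤ (p - v * r) + 2 * v := by
      have : (A.card : ℝ) ≤ (((p - v * r) + 2 * v : ℕ) : ℝ) := by exact_mod_cast hAu
      push_cast [Nat.cast_sub (show v * r ≤ p by omega)] at this
      exact this
    have h2 : (p : ℝ) - v * r < 3 * r := by
      have : p < v * r + 3 * r := by omega
      have : (p : ℝ) < v * r + 3 * r := by exact_mod_cast this
      linarith
    have h3 : 2 * (v : ℝ) ≤ 2 / r * p := by
      have h4 : v * r ≤ p := by omega
      have h4' : (v : ℝ) * r ≤ p := by exact_mod_cast h4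
      have : (v : ℝ) ≤ p / r := by
        rw [le_div_iff₀ hrpos]
        exact h4'
      calc 2 * (v : ℝ) ≤ 2 * (p / r) := by linarith
        _ = 2 / r * p := by ring
    have h5 : 3 * (r : ℝ) ≤ δ * p := by
      have h6 : 3 * r / δ < (p : ℝ) := lt_of_lt_of_le hQ (by exact_mod_cast hPQ)
      rw [div_lt_iff₀ hδpos] at h6
      linarith
    have h7 : δ * p = (1 - β) * p / 2 - 2 / r * p := by
      rw [hδ]; ring
    linarith
  · intro a
    by_cases ha : a ∈ A
    · refine le_trans ?_ (hdeg a ha)
      apply Finset.card_le_card_of_injOn (fun e => e.2)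
      · intro e he
        simp only [hF, Finset.coe_filter, Set.mem_ofPred_eq, Finset.mem_filter,
          Finset.mem_product] at he ⊢
        obtain ⟨⟨⟨_, h2⟩, h3⟩, h4⟩ := he
        rw [← h4]
        exact ⟨h2, h3⟩
      · intro e he e' he' hee
        simp only [Finset.coe_filter, Set.mem_ofPred_eq] at he he'
        exact Prod.ext (he.2.trans he'.2.symm) hee
    · have : F.filter (fun e => e.1 = a) = ∅ := by
        rw [Finset.filter_eq_empty_iff]
        intro e he h
        rw [hF, Finset.mem_filter, Finset.mem_product] at he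
        exact ha (h ▸ he.1.1)
      rw [this]
      simp
  · intro a
    by_cases ha : a ∈ A
    · refine le_trans ?_ (hdeg a ha)
      apply Finset.card_le_card_of_injOn (fun e => e.1)
      · intro e he
        simp only [hF, Finset.coe_filter, Set.mem_ofPred_eq, Finset.mem_filter,
          Finset.mem_product] at he ⊢
        obtain ⟨⟨⟨h1, _⟩, h3⟩, h4⟩ := he
        rw [← h4, add_comm]
        exact ⟨h1, h3⟩
      · intro e he e' he' hee
        simp only [Finset.coe_filter, Set.mem_ofPred_eq] at he he'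
        exact Prod.ext hee (he.2.trans he'.2.symm)
    · have : F.filter (fun e => e.2 = a) = ∅ := by
        rw [Finset.filter_eq_empty_iff]
        intro e he h
        rw [hF, Finset.mem_filter, Finset.mem_product] at he
        exact ha (h ▸ he.1.2)
      rw [this]
      simp
  · intro B' hB'
    have h1 : restrictedSum A B' F ⊆ T := by
      intro s hs
      simp only [restrictedSum, hF, Finset.mem_image, Finset.mem_filter,
        Finset.mem_product] at hs
      obtain ⟨e, ⟨⟨h1, h2⟩, h3⟩, rfl⟩ := hs
      by_contra hcon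
      exact h3 ⟨⟨h1, hB' h2⟩, hcon⟩
    have h2 : (restrictedSum A B' F).card ≤ 4 := (Finset.card_le_card h1).trans hTcard
    omega

end Pool.Agent.Results.MP_329cea_co.StarFails
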